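import Pool.Agent.W5h68.RA.Core
import Pool.Agent.W5h68.RA.Szem

set_option autoImplicit false

/-!
# Progression-free sets and circuits of constant depth

Let `A ⊆ [0, 2^M)` contain no three-term progression. We consider circuits of depth `d` with at most
`2 ^ ℓ` nodes which read the `M` binary digits of an integer (AND and OR gates of unbounded fan-in,
negations are free, arbitrary gates with at most `w` wires), and `loss = d (2^(d+9) w ℓ)^d`.

* If `A` is a union of `T` sets decided by such circuits, `|A| ≤ T 2^M 2^(2 ℓ + 13 - M / (32 loss))`.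
  So the extremal sets for `r_3(2^M)`, and all progression-free sets with `2^(M - C √M)` elements,
  need `2 ^ (δ M ^ (1 / (2 d)))` nodes, even as unions of `2 ^ (C √M)` sets.
* For arbitrary `A`: if `F ⊆ [0, 2^M)` is decided by such a circuit, then the relative density of
  `A` in `F` is at most `r_3(2^m) / 2^m + ε`, up to an error which is small as long as
  `|F| ≥ 2^M 2^(- c M / loss)`. So Roth's theorem holds in all the sparse sets `F` decided by
  small circuits of constant depth.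
* The same for the multidimensional theorem of Szemerédi (Furstenberg and Katznelson): for every
  finite configuration `P ⊆ ℤ^e` and `δ > 0` there is `c > 0` such that every set `A` without
  homothetic copies of `P` has at most `δ |F| + 2^(e M) 2^(2 ℓ + 1 / c - c M / loss)` elements in
  every `F ⊆ [0, 2^M)^e` decided by such a circuit.

Method. A large set decided by such a circuit has small average sensitivity (the tail bound for the
sensitivity of circuits, `Pool.Agent.Y220.CO.done`, from the multi-switching lemma, and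
`Pool.Agent.Y347.CO.rel_circ`, both from the starting files). So there is a block of `m` consecutive
digits with few boundary edges of `F`, and `F` is almost a union of dilated translates of the grid
`[0, 2^m)^e`. The theorem of Furstenberg and Katznelson is derived from the density Hales-Jewett
theorem of the starting files (`Pool.Agent.H602R3.DHJ.dhj`), the lower bound for `r_3` is Behrend's.
-/

namespace Pool.Agent.Results.MP_0f71ae_nt.ConstantDepthCircuits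

open Finset Function Pool.Agent.W5h68.RA

/-- `loss w ℓ d = d (2 ^ (d + 9) w ℓ) ^ d` -/
def loss (w ℓ d : ℕ) : ℕ := d * (2 ^ (d + 9) * (w * ℓ)) ^ d

/-- `F ⊆ [0, 2^M)` is decided by a circuit of depth at most `d` with at most `2 ^ ℓ` nodes, which
reads the `M` binary digits; its gates are AND and OR gates of any number of wires and arbitrary
gates with at most `w` wires, negations are free. -/
def Decided (w ℓ d M : ℕ) (F : Finset ℕ) : Prop :=
  (∀ a ∈ F, a < 2 ^ M) ∧ ∃ (C : Y603.MS.Circuit w M) (o : C.Node), C.leak = ∅ ∧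
    Nat.card C.Node ≤ 2 ^ ℓ ∧ (∀ v, C.depth v ≤ d) ∧
    ∀ a < 2 ^ M, (a ∈ F ↔ C.val o (fun b => a.testBit b) = true)

/-- The same for `F ⊆ [0, 2^M)^e`; the circuit reads the `e M` binary digits of the coordinates, in
any numbering. -/
def DecidedIn (w ℓ d M : ℕ) {e : ℕ} (F : Finset (Fin e → ℕ)) : Prop :=
  (∀ a ∈ F, ∀ i, a i < 2 ^ M) ∧ ∃ (K : ℕ) (σ : Fin e × Fin M ≃ Fin K) (C : Y603.MS.Circuit w K)
    (o : C.Node), C.leak = ∅ ∧ Nat.card C.Node ≤ 2 ^ ℓ ∧ (∀ v, C.depth v ≤ d) ∧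
    ∀ a : Fin e → ℕ, (∀ i, a i < 2 ^ M) →
      (a ∈ F ↔ C.val o (fun b => (a (σ.symm b).1).testBit (σ.symm b).2) = true)

/-- `A` contains a homothetic copy `a + t P`, `t ≥ 1`, of the configuration `P`. -/
def HasCopy {e : ℕ} (P : Finset (Fin e → ℤ)) (A : Finset (Fin e → ℕ)) : Prop :=
  ∃ (a : Fin e → ℤ) (t : ℕ), 0 < t ∧ ∀ v ∈ P, ∃ b ∈ A, ∀ i, (b i : ℤ) = a i + t * v i

/-- `A` has at most `r` points in every dilated translate `c + t [0, 2^m)^e`, `t ≥ 1`. -/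
def InGrids {e : ℕ} (m r : ℕ) (A : Finset (Fin e → ℕ)) : Prop :=
  ∀ (c : Fin e → ℕ) (t : ℕ), 0 < t →
    ((Fintype.piFinset fun _ : Fin e => range (2 ^ m)).filter
      fun u => (fun i => c i + t * u i) ∈ A).card ≤ r

theorem loss_cast (w ℓ d : ℕ) : ((loss w ℓ d : ℕ) : ℝ) = (d : ℝ) * Y347.CO.KK d w ℓ := by
  rw [loss, Y347.CO.KK, Nat.cast_mul]

theorem one_le_loss {w ℓ d : ℕ} (hw : 1 ≤ w) (hℓ : 1 ≤ ℓ) (hd : 1 ≤ d) :
    (1 : ℝ) ≤ (loss w ℓ d : ℕ) := by
  have h1 : 1 ≤ loss w ℓ d := by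
    unfold loss
    have : 0 < w * ℓ := Nat.mul_pos hw hℓ
    have h2 : 0 < (2 ^ (d + 9) * (w * ℓ)) ^ d := by positivity
    exact Nat.mul_pos hd h2
  exact_mod_cast h1

theorem grids {e M m w ℓ d r : ℕ} (hw : 1 ≤ w) (hℓ : 1 ≤ ℓ) (hd : 1 ≤ d) (hm : 1 ≤ m)
    (hmM : m ≤ M) (F A : Finset (Fin e → ℕ)) (hF : DecidedIn w ℓ d M F) (hA : InGrids m r A)
    {ε : ℝ} (hε : 0 < ε) :
    ((A ∩ F).card : ℝ) ≤ (r / 2 ^ (e * m) + ε) * F.card +
      2 * (e * m : ℕ) / ε *
        (2 ^ (e * M) * (2 : ℝ) ^ (2 * ℓ + 4 - ε / 2 * (M / m : ℕ) / loss w ℓ d : ℝ)) := by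
  obtain ⟨hF0, K, σ, C, o, hleak, hs, hdep, hC⟩ := hF
  have hK : K = e * M := by
    have := Fintype.card_congr σ
    rw [Fintype.card_prod, Fintype.card_fin, Fintype.card_fin, Fintype.card_fin] at this
    exact this.symm
  have h := main_add C hleak hℓ hw hd hs hdep o σ F A hF0 hC hm hmM r hA hε
  rw [hK] at h
  rw [loss_cast]
  exact h

/-- one coordinate -/
def single : ℕ ↪ (Fin 1 → ℕ) := ⟨fun a _ => a, fun _ _ h => congrFun h 0⟩

theorem decidedIn_single {w ℓ d M : ℕ} {F : Finset ℕ} (hF : Decided w ℓ d M F) :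
    DecidedIn w ℓ d M (F.map single) := by
  obtain ⟨hF0, C, o, hleak, hs, hdep, hC⟩ := hF
  refine ⟨?_, M, Equiv.uniqueProd (Fin M) (Fin 1), C, o, hleak, hs, hdep, ?_⟩
  · intro a ha i
    obtain ⟨b, hb, rfl⟩ := mem_map.1 ha
    exact hF0 b hb
  · intro a ha
    have h1 : a = single (a 0) := by
      funext i
      rw [Subsingleton.elim i 0]
      rfl
    have h2 := hC (a 0) (ha 0)
    rw [h1, mem_map' single]
    exact h2

theorem card_single (A F : Finset ℕ) :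
    ((A.map single) ∩ (F.map single)).card = (A ∩ F).card := by
  rw [← map_inter, card_map]

/-- the grids in one dimension -/
theorem inGrids_single {m r : ℕ} {A : Finset ℕ}
    (h : ∀ c t : ℕ, 0 < t → ((range (2 ^ m)).filter fun u => c + t * u ∈ A).card ≤ r) :
    InGrids m r (A.map single) := by
  intro c t ht
  refine le_trans ?_ (h (c 0) t ht)
  refine card_le_card_of_injOn (fun u => u 0) ?_ ?_
  · intro u hu
    have hu' := mem_filter.1 (mem_coe.1 hu)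
    refine mem_coe.2 (mem_filter.2 ⟨?_, ?_⟩)
    · exact (Fintype.mem_piFinset.1 hu'.1) 0
    · obtain ⟨b, hb, hbe⟩ := mem_map.1 hu'.2
      have : c 0 + t * u 0 = b := (congrFun hbe 0).symm
      rw [this]
      exact hb
  · intro u _ u' _ h
    funext i
    rw [Subsingleton.elim i 0]
    exact h

theorem slice_card {m : ℕ} {A : Finset ℕ} (hA : ThreeAPFree (A : Set ℕ)) (c t : ℕ) (ht : 0 < t) :
    ((range (2 ^ m)).filter fun u => c + t * u ∈ A).card ≤ rothNumberNat (2 ^ m) := by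
  refine ThreeAPFree.le_rothNumberNat
    ((range (2 ^ m)).filter fun u => c + t * u ∈ A) ?_ ?_ rfl
  · intro x hx y hy z hz hxyz
    have hx' := (mem_filter.1 (mem_coe.1 hx)).2
    have hy' := (mem_filter.1 (mem_coe.1 hy)).2
    have hz' := (mem_filter.1 (mem_coe.1 hz)).2
    have h1 := hA (mem_coe.2 hx') (mem_coe.2 hy') (mem_coe.2 hz') (by
      have : t * (x + z) = t * (y + y) := by rw [hxyz]
      linarith)
    have h2 : t * x = t * y := by omega
    exact Nat.eq_of_mul_eq_mul_left ht h2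
  · intro x hx
    exact mem_range.1 (mem_filter.1 hx).1

theorem slice_three {A : Finset ℕ} (hA : ThreeAPFree (A : Set ℕ)) (c t : ℕ) (ht : 0 < t) :
    ((range (2 ^ 2)).filter fun u => c + t * u ∈ A).card ≤ 3 := by
  by_contra hcon
  push Not at hcon
  have h1 : (range (2 ^ 2)).filter (fun u => c + t * u ∈ A) = range (2 ^ 2) := by
    apply eq_of_subset_of_card_le (filter_subset _ _)
    rw [card_range]
    omega
  have h2 : ∀ u < 4, c + t * u ∈ A := by
    intro u hu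
    have : u ∈ (range (2 ^ 2)).filter (fun u => c + t * u ∈ A) := by
      rw [h1]
      exact mem_range.2 (by omega)
    exact (mem_filter.1 this).2
  have h3 := hA (mem_coe.2 (h2 0 (by norm_num))) (mem_coe.2 (h2 1 (by norm_num)))
    (mem_coe.2 (h2 2 (by norm_num))) (by ring)
  omega

/-- sets decided by one circuit -/
theorem small_one {M w ℓ d : ℕ} (hw : 1 ≤ w) (hℓ : 1 ≤ ℓ) (hd : 1 ≤ d) (A : Finset ℕ)
    (hA : ThreeAPFree (A : Set ℕ)) (hdec : Decided w ℓ d M A) :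
    (A.card : ℝ) ≤ 2 ^ M * (2 : ℝ) ^ (2 * ℓ + 13 - M / (32 * loss w ℓ d) : ℝ) := by
  have hl1 := one_le_loss hw hℓ hd
  have hAc : (A.card : ℝ) ≤ 2 ^ M := by
    have : A.card ≤ (range (2 ^ M)).card :=
      card_le_card fun a ha => mem_range.2 (hdec.1 a ha)
    rw [card_range] at this
    exact_mod_cast this
  rcases Nat.lt_or_ge M 2 with hM | hM
  · refine hAc.trans ?_
    have h1 : (1 : ℝ) ≤ (2 : ℝ) ^ (2 * ℓ + 13 - M / (32 * loss w ℓ d) : ℝ) := by
      apply Real.one_le_rpow (by norm_num)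
      have h2 : (M : ℝ) / (32 * loss w ℓ d) ≤ 2 := by
        rw [div_le_iff₀ (by linarith)]
        have : (M : ℝ) ≤ 2 := by exact_mod_cast hM.le
        linarith
      have : (0 : ℝ) ≤ ℓ := Nat.cast_nonneg _
      linarith
    have h2 : (0 : ℝ) < 2 ^ M := by positivity
    nlinarith
  have h := grids (m := 2) (r := 3) hw hℓ hd (by norm_num) hM (A.map single) (A.map single)
    (decidedIn_single hdec) (inGrids_single fun c t ht => slice_three hA c t ht)
    (ε := 1 / 8) (by norm_num)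
  rw [card_single, inter_self, card_map] at h
  set E : ℝ := (2 : ℝ) ^ (2 * ℓ + 4 - 1 / 8 / 2 * (M / 2 : ℕ) / loss w ℓ d : ℝ) with hE
  have h1 : (A.card : ℝ) ≤ 2 ^ 8 * (2 ^ M * E) := by
    norm_num at h
    linarith
  refine h1.trans ?_
  have h2 : (2 : ℝ) ^ 8 * E ≤ (2 : ℝ) ^ (2 * ℓ + 13 - M / (32 * loss w ℓ d) : ℝ) := by
    have e8 : (2 : ℝ) ^ 8 = (2 : ℝ) ^ (8 : ℝ) := by norm_num
    rw [hE, e8, ← Real.rpow_add (by norm_num)]
    apply Real.rpow_le_rpow_of_exponent_le (by norm_num)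
    have h3 : (M : ℝ) ≤ 2 * (M / 2 : ℕ) + 1 := by
      have : M ≤ 2 * (M / 2) + 1 := by omega
      exact_mod_cast this
    have h4 : (M : ℝ) / (32 * loss w ℓ d) ≤ 1 / 8 / 2 * (M / 2 : ℕ) / loss w ℓ d + 1 := by
      have h5 : (1 : ℝ) / 8 / 2 * (M / 2 : ℕ) / loss w ℓ d =
          (2 * (M / 2 : ℕ)) / (32 * loss w ℓ d) := by
        field_simp
        ring
      rw [h5]
      have h6 : (M : ℝ) / (32 * loss w ℓ d) ≤ (2 * (M / 2 : ℕ) + 1) / (32 * loss w ℓ d) := by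
        gcongr
      refine h6.trans ?_
      rw [add_div]
      have h7 : (1 : ℝ) / (32 * loss w ℓ d) ≤ 1 := by
        rw [div_le_one (by linarith)]
        linarith
      linarith
    linarith
  have h3 : (0 : ℝ) < 2 ^ M := by positivity
  calc (2 : ℝ) ^ 8 * (2 ^ M * E) = 2 ^ M * (2 ^ 8 * E) := by ring
    _ ≤ _ := mul_le_mul_of_nonneg_left h2 h3.le

/-- a single constant (after `Pool.Agent.Y347.CO.num_c` of the starting files) -/
theorem num_c (m : ℕ) (hm : 1 ≤ m) (Q β : ℝ) (hQ : 0 < Q) (hβ : 0 < β) :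
    ∃ c : ℝ, 0 < c ∧ ∀ (n : ℕ) (X a : ℝ), 1 ≤ X → 0 ≤ a →
      (m ≤ n → Q * (2 : ℝ) ^ (a + 4 - β * (n / m : ℕ) / X) ≤ (2 : ℝ) ^ (a + 1 / c - c * n / X)) ∧
      (n < m → 1 ≤ (2 : ℝ) ^ (a + 1 / c - c * n / X)) := by
  set L : ℝ := max (Real.logb 2 Q) 0 with hL
  have hL0 : 0 ≤ L := le_max_right _ _
  have hm' : (1 : ℝ) ≤ m := by exact_mod_cast hm
  set c : ℝ := min (β / (2 * m)) (1 / (4 + L + m)) with hc
  have hc0 : 0 < c := lt_min (by positivity) (by positivity)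
  have hc1 : c ≤ β / (2 * m) := min_le_left _ _
  have hc2 : c ≤ 1 / (4 + L + m) := min_le_right _ _
  have hc3 : 4 + L + m ≤ 1 / c := by
    rw [le_div_iff₀ hc0]
    rw [le_div_iff₀ (by positivity)] at hc2
    linarith
  have hc4 : c ≤ 1 := by
    refine hc2.trans ?_
    rw [div_le_one (by positivity)]
    linarith
  refine ⟨c, hc0, fun n X a hX ha => ⟨fun hmn => ?_, fun hnm => ?_⟩⟩
  · have hX0 : 0 < X := by linarith
    have hQ2 : Q ≤ (2 : ℝ) ^ L := by
      calc Q = (2 : ℝ) ^ (Real.logb 2 Q) := (Real.rpow_logb (by norm_num) (by norm_num) hQ).symm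
        _ ≤ _ := Real.rpow_le_rpow_of_exponent_le (by norm_num) (le_max_left _ _)
    have h1 : Q * (2 : ℝ) ^ (a + 4 - β * (n / m : ℕ) / X) ≤
        (2 : ℝ) ^ (L + (a + 4 - β * (n / m : ℕ) / X)) := by
      rw [Real.rpow_add (by norm_num)]
      exact mul_le_mul_of_nonneg_right hQ2 (by positivity)
    refine h1.trans (Real.rpow_le_rpow_of_exponent_le (by norm_num) ?_)
    have h2 : (n : ℝ) ≤ 2 * m * (n / m : ℕ) := by
      have h3 : n < (n / m + 1) * m := by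
        have := Nat.lt_div_mul_add (a := n) (b := m) (by omega)
        nlinarith
      have h4 : 1 ≤ n / m := (Nat.one_le_div_iff (by omega)).2 hmn
      have h5 : n ≤ 2 * m * (n / m) := by nlinarith
      exact_mod_cast h5
    have h6 : c * n / X ≤ β * (n / m : ℕ) / X := by
      apply div_le_div_of_nonneg_right _ hX0.le
      calc c * n ≤ β / (2 * m) * n := mul_le_mul_of_nonneg_right hc1 (Nat.cast_nonneg _)
        _ ≤ β / (2 * m) * (2 * m * (n / m : ℕ)) := mul_le_mul_of_nonneg_left h2 (by positivity)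
        _ = β * (n / m : ℕ) := by field_simp
    linarith
  · apply Real.one_le_rpow (by norm_num)
    have hnm' : (n : ℝ) ≤ m := by exact_mod_cast hnm.le
    have h1 : c * n / X ≤ m := by
      rw [div_le_iff₀ (by linarith)]
      have : c * n ≤ 1 * n := mul_le_mul_of_nonneg_right hc4 (Nat.cast_nonneg _)
      nlinarith
    linarith

/-- copies in slices -/
theorem copy_of_slice {e m : ℕ} {P : Finset (Fin e → ℤ)} {A : Finset (Fin e → ℕ)}
    (c : Fin e → ℕ) (t : ℕ) (ht : 0 < t)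
    (h : Copy P ((Fintype.piFinset fun _ : Fin e => range (2 ^ m)).filter
      fun u => (fun i => c i + t * u i) ∈ A)) : HasCopy P A := by
  obtain ⟨a, s, hs, h⟩ := h
  refine ⟨fun i => c i + t * a i, t * s, Nat.mul_pos ht hs, fun v hv => ?_⟩
  obtain ⟨b, hb, hbe⟩ := h v hv
  refine ⟨_, (mem_filter.1 hb).2, fun i => ?_⟩
  have := hbe i
  push_cast
  rw [this]
  ring

theorem relative (e : ℕ) (he : 1 ≤ e) (P : Finset (Fin e → ℤ)) (δ : ℝ) (hδ : 0 < δ) :
    ∃ c : ℝ, 0 < c ∧ ∀ M w ℓ d : ℕ, 1 ≤ w → 1 ≤ ℓ → 1 ≤ d → ∀ F A : Finset (Fin e → ℕ),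
      DecidedIn w ℓ d M F → ¬ HasCopy P A →
      ((A ∩ F).card : ℝ) ≤ δ * F.card +
        2 ^ (e * M) * (2 : ℝ) ^ (2 * ℓ + 1 / c - c * M / loss w ℓ d : ℝ) := by
  classical
  obtain ⟨L₀, hL₀⟩ := szem e P (δ / 2) (by positivity)
  set m : ℕ := L₀ + 1 with hm
  have hm1 : 1 ≤ m := by omega
  have hLm : L₀ ≤ 2 ^ m := by
    have : m < 2 ^ m := Nat.lt_two_pow_self
    omega
  set q : ℕ := e * m with hq
  have hq1 : 1 ≤ q := Nat.mul_pos he hm1
  have hq1' : (0 : ℝ) < (q : ℕ) := by exact_mod_cast hq1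
  obtain ⟨c, hc0, hcc⟩ := num_c m hm1 (4 * (q : ℕ) / δ) (δ / 4) (by positivity) (by positivity)
  refine ⟨c, hc0, fun M w ℓ d hw hℓ hd F A hF hA => ?_⟩
  obtain ⟨h1, h2⟩ := hcc M (loss w ℓ d) (2 * ℓ) (one_le_loss hw hℓ hd) (by positivity)
  have hAF : ((A ∩ F).card : ℝ) ≤ F.card := by exact_mod_cast card_le_card inter_subset_right
  have h4 : (0 : ℝ) < 2 ^ (e * M) := by positivity
  rcases le_or_gt m M with hmM | hMm
  · have hg : InGrids m ⌊δ / 2 * (2 : ℝ) ^ (e * m)⌋₊ A := by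
      intro c' t ht
      apply Nat.le_floor
      by_contra hcon
      push Not at hcon
      apply hA
      apply copy_of_slice (m := m) c' t ht
      apply hL₀ _ hLm
      · intro a ha i
        exact mem_range.1 ((Fintype.mem_piFinset.1 (mem_filter.1 ha).1) i)
      · have : ((2 ^ m : ℕ) : ℝ) ^ e = (2 : ℝ) ^ (e * m) := by
          push_cast
          rw [← pow_mul, mul_comm]
        rw [this]
        exact hcon.le
    have h5 := grids hw hℓ hd hm1 hmM F A hF hg (ε := δ / 2) (by positivity)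
    have h6 : ((⌊δ / 2 * (2 : ℝ) ^ (e * m)⌋₊ : ℕ) : ℝ) ≤ δ / 2 * (2 : ℝ) ^ (e * m) :=
      Nat.floor_le (by positivity)
    have h7 : ((⌊δ / 2 * (2 : ℝ) ^ (e * m)⌋₊ : ℕ) : ℝ) / 2 ^ (e * m) ≤ δ / 2 := by
      rw [div_le_iff₀ (by positivity)]
      exact h6
    have h8 : (((⌊δ / 2 * (2 : ℝ) ^ (e * m)⌋₊ : ℕ) : ℝ) / 2 ^ (e * m) + δ / 2) * F.card ≤
        δ * F.card := by
      apply mul_le_mul_of_nonneg_right _ (Nat.cast_nonneg _)
      linarith
    have h9 := mul_le_mul_of_nonneg_left (h1 hmM) h4.le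
    have e1 : 2 * ((e * m : ℕ) : ℝ) / (δ / 2) = 4 * (q : ℕ) / δ := by
      rw [hq]
      field_simp
      ring
    have e2 : δ / 2 / 2 = δ / 4 := by ring
    rw [e1, e2] at h5
    have h10 : 4 * ((q : ℕ) : ℝ) / δ * (2 ^ (e * M) *
        (2 : ℝ) ^ (2 * ℓ + 4 - δ / 4 * (M / m : ℕ) / loss w ℓ d : ℝ)) =
        2 ^ (e * M) * (4 * (q : ℕ) / δ *
          (2 : ℝ) ^ (2 * ℓ + 4 - δ / 4 * (M / m : ℕ) / loss w ℓ d : ℝ)) := by ring
    linarith
  · have hFc : (F.card : ℝ) ≤ 2 ^ (e * M) := by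
      have h3 : F.card ≤ (Fintype.piFinset fun _ : Fin e => range (2 ^ M)).card := by
        apply card_le_card
        intro a ha
        rw [Fintype.mem_piFinset]
        exact fun i => mem_range.2 (hF.1 a ha i)
      rw [Fintype.card_piFinset] at h3
      simp only [card_range, prod_const, card_univ, Fintype.card_fin] at h3
      rw [← pow_mul, mul_comm] at h3
      exact_mod_cast h3
    have h5 := mul_le_mul_of_nonneg_left (h2 hMm) h4.le
    have hδF : 0 ≤ δ * F.card := by positivity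
    linarith

/-- unions of sets decided by circuits -/
theorem small_union {M w ℓ d T : ℕ} (hw : 1 ≤ w) (hℓ : 1 ≤ ℓ) (hd : 1 ≤ d) (A : Finset ℕ)
    (F : Fin T → Finset ℕ) (hA : ThreeAPFree (A : Set ℕ)) (hdec : ∀ i, Decided w ℓ d M (F i))
    (hun : ∀ a, a ∈ A ↔ ∃ i, a ∈ F i) :
    (A.card : ℝ) ≤ T * 2 ^ M * (2 : ℝ) ^ (2 * ℓ + 13 - M / (32 * loss w ℓ d) : ℝ) := by
  classical
  have h1 : ∀ i, ((F i).card : ℝ) ≤
      2 ^ M * (2 : ℝ) ^ (2 * ℓ + 13 - M / (32 * loss w ℓ d) : ℝ) := by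
    intro i
    refine small_one hw hℓ hd (F i) (hA.mono ?_) (hdec i)
    intro a ha
    exact mem_coe.2 ((hun a).2 ⟨i, mem_coe.1 ha⟩)
  have h2 : A.card ≤ ∑ i, (F i).card := by
    refine (card_le_card (t := univ.biUnion F) fun p hp => ?_).trans card_biUnion_le
    obtain ⟨i, hi⟩ := (hun p).1 hp
    exact mem_biUnion.2 ⟨i, mem_univ _, hi⟩
  have h3 : (A.card : ℝ) ≤ ∑ i, ((F i).card : ℝ) := by exact_mod_cast h2
  refine h3.trans ((sum_le_sum fun i _ => h1 i).trans (le_of_eq ?_))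
  rw [sum_const, card_univ, Fintype.card_fin, nsmul_eq_mul, mul_assoc]

/-- large progression-free sets need large circuits -/
theorem large (w d : ℕ) (hw : 1 ≤ w) (hd : 1 ≤ d) (C : ℝ) (hC : 0 ≤ C) :
    ∃ δ : ℝ, 0 < δ ∧ ∀ M ℓ T : ℕ, 1 ≤ ℓ → ∀ (A : Finset ℕ) (F : Fin T → Finset ℕ),
      ThreeAPFree (A : Set ℕ) → (2 : ℝ) ^ (M - C * Real.sqrt M : ℝ) ≤ A.card →
      (T : ℝ) ≤ (2 : ℝ) ^ (C * Real.sqrt M) → (∀ i, Decided w ℓ d M (F i)) →
      (∀ a, a ∈ A ↔ ∃ i, a ∈ F i) → δ * (M : ℝ) ^ (1 / (2 * d) : ℝ) ≤ ℓ := by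
  set B : ℝ := d * ((2 : ℝ) ^ (d + 9) * w) ^ d with hB
  have hd' : (1 : ℝ) ≤ d := by exact_mod_cast hd
  have hw' : (1 : ℝ) ≤ w := by exact_mod_cast hw
  have hB1 : 1 ≤ B := by
    have h1 : (1 : ℝ) ≤ (2 : ℝ) ^ (d + 9) := one_le_pow₀ (by norm_num)
    have h2 : (1 : ℝ) ≤ (2 : ℝ) ^ (d + 9) * w := by nlinarith
    have h3 : (1 : ℝ) ≤ ((2 : ℝ) ^ (d + 9) * w) ^ d := one_le_pow₀ h2
    rw [hB]
    nlinarith
  set δ : ℝ := 1 / (64 * B * (15 + 2 * C)) with hδ
  have hδ0 : 0 < δ := by positivity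
  have hδ1 : δ ≤ 1 := by
    rw [hδ, div_le_one (by positivity)]
    nlinarith
  refine ⟨δ, hδ0, fun M ℓ T hℓ A F hA hlow hT hdec hun => ?_⟩
  by_contra hcon
  push Not at hcon
  have hℓ' : (1 : ℝ) ≤ ℓ := by exact_mod_cast hℓ
  rcases Nat.eq_zero_or_pos M with rfl | hM
  · have h1 : δ * ((0 : ℕ) : ℝ) ^ (1 / (2 * d) : ℝ) ≤ 0 := by
      rw [Nat.cast_zero, Real.zero_rpow (by positivity)]
      simp
    linarith
  have hM' : (1 : ℝ) ≤ M := by exact_mod_cast hM
  have hM0 : (0 : ℝ) < M := by linarith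
  have hloss : ((loss w ℓ d : ℕ) : ℝ) = B * (ℓ : ℝ) ^ d := by
    rw [loss, hB]
    push_cast
    rw [← mul_assoc ((2 : ℝ) ^ (d + 9)), mul_pow]
    ring
  have hb := small_union hw hℓ hd A F hA hdec hun
  have h1 : (2 : ℝ) ^ (M - C * Real.sqrt M : ℝ) ≤
      (2 : ℝ) ^ (C * Real.sqrt M + M + (2 * ℓ + 13 - M / (32 * loss w ℓ d)) : ℝ) := by
    refine hlow.trans (hb.trans ?_)
    rw [Real.rpow_add (by norm_num), Real.rpow_add (by norm_num), Real.rpow_natCast]
    gcongr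
  have h2 := (Real.rpow_le_rpow_left_iff (by norm_num : (1 : ℝ) < 2)).1 h1
  have hl1 := one_le_loss hw hℓ hd
  have h3 : (M : ℝ) / (32 * loss w ℓ d) ≤ 2 * ℓ + 13 + 2 * C * Real.sqrt M := by linarith
  rw [div_le_iff₀ (by linarith), hloss] at h3
  -- powers
  have hsq : Real.sqrt M * Real.sqrt M = M := Real.mul_self_sqrt hM0.le
  have hsq1 : 1 ≤ Real.sqrt M := by
    rw [Real.one_le_sqrt]; exact hM'
  have hpow : ((M : ℝ) ^ (1 / (2 * d) : ℝ)) ^ d = Real.sqrt M := by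
    rw [← Real.rpow_natCast, ← Real.rpow_mul hM0.le, Real.sqrt_eq_rpow]
    congr 1
    field_simp
  have hroot : (1 : ℝ) ≤ (M : ℝ) ^ (1 / (2 * d) : ℝ) := Real.one_le_rpow hM' (by positivity)
  have h4 : (ℓ : ℝ) ^ d ≤ δ * Real.sqrt M := by
    calc (ℓ : ℝ) ^ d ≤ (δ * (M : ℝ) ^ (1 / (2 * d) : ℝ)) ^ d :=
          pow_le_pow_left₀ (by positivity) hcon.le d
      _ = δ ^ d * Real.sqrt M := by rw [mul_pow, hpow]
      _ ≤ δ * Real.sqrt M := by
        apply mul_le_mul_of_nonneg_right _ (by positivity)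
        calc δ ^ d ≤ δ ^ 1 := pow_le_pow_of_le_one hδ0.le hδ1 hd
          _ = δ := pow_one δ
  have h5 : (ℓ : ℝ) ≤ Real.sqrt M := by
    have h6 : (M : ℝ) ^ (1 / (2 * d) : ℝ) ≤ Real.sqrt M := by
      rw [← hpow]
      exact le_self_pow₀ hroot (by omega)
    have h7 : (0 : ℝ) < (M : ℝ) ^ (1 / (2 * d) : ℝ) := by linarith
    nlinarith
  have h6 : 2 * (ℓ : ℝ) + 13 + 2 * C * Real.sqrt M ≤ (15 + 2 * C) * Real.sqrt M := by nlinarith
  have h7 : (M : ℝ) ≤ ((15 + 2 * C) * Real.sqrt M) * (32 * (B * (δ * Real.sqrt M))) := by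
    refine h3.trans ?_
    apply mul_le_mul h6 _ (by positivity) (by positivity)
    have : B * (ℓ : ℝ) ^ d ≤ B * (δ * Real.sqrt M) := mul_le_mul_of_nonneg_left h4 (by positivity)
    linarith
  have h8 : ((15 + 2 * C) * Real.sqrt M) * (32 * (B * (δ * Real.sqrt M))) = M / 2 := by
    calc ((15 + 2 * C) * Real.sqrt M) * (32 * (B * (δ * Real.sqrt M))) =
          (32 * B * (15 + 2 * C) * δ) * (Real.sqrt M * Real.sqrt M) := by ring
      _ = 1 / 2 * M := by
        rw [hsq, hδ]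
        congr 1
        field_simp
        norm_num
      _ = M / 2 := by ring
  linarith

/-- Behrend's theorem for powers of two -/
theorem behrend_two (M : ℕ) : (2 : ℝ) ^ (M - 5 * Real.sqrt M : ℝ) ≤ rothNumberNat (2 ^ M) := by
  refine le_trans ?_ (Behrend.roth_lower_bound (N := 2 ^ M))
  push_cast
  rw [Real.rpow_sub (by norm_num), Real.rpow_natCast, div_eq_mul_inv, ← Real.rpow_neg (by norm_num)]
  apply mul_le_mul_of_nonneg_left _ (by positivity)
  rw [Real.rpow_def_of_pos (by norm_num), Real.exp_le_exp, Real.log_pow,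
    Real.sqrt_mul (Nat.cast_nonneg _)]
  have h1 : 4 * Real.sqrt (Real.log 2) ≤ 5 * Real.log 2 := by
    have h2 : (0.69314718 : ℝ) < Real.log 2 := by
      have := Real.log_two_gt_d9
      linarith
    have h3 : Real.sqrt (Real.log 2) * Real.sqrt (Real.log 2) = Real.log 2 :=
      Real.mul_self_sqrt (by linarith)
    have h4 : (4 : ℝ) / 5 ≤ Real.sqrt (Real.log 2) := by
      apply Real.le_sqrt_of_sq_le
      norm_num
      linarith
    nlinarith
  have h2 : 0 ≤ Real.sqrt M := Real.sqrt_nonneg _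
  nlinarith

/-- **Theorem.** Let `w, ℓ, d ≥ 1`.
(1) Let `1 ≤ m ≤ M`, let `F ⊆ [0, 2^M)^e` be decided by a circuit of depth `d` with `2 ^ ℓ` nodes and
let `A` be any set which has at most `r` points in every dilated translate of `[0, 2^m)^e`. Then, for
every `ε > 0`,
`|A ∩ F| ≤ (r / 2^(e m) + ε) |F| + (2 e m / ε) 2^(e M) 2^(2 ℓ + 4 - (ε / 2) ⌊M / m⌋ / loss)`.
(2) If `F ⊆ [0, 2^M)` is decided by such a circuit and `A` has no three-term progression, then
`|A ∩ F| ≤ (r_3(2^m) / 2^m + ε) |F| + (2 m / ε) 2^M 2^(2 ℓ + 4 - (ε / 2) ⌊M / m⌋ / loss)`.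
(3) For every finite configuration `P ⊆ ℤ^e` and every `δ > 0` there is `c > 0` such that
`|A ∩ F| ≤ δ |F| + 2^(e M) 2^(2 ℓ + 1 / c - c M / loss)` for all `F ⊆ [0, 2^M)^e` decided by such
circuits and all `A` without homothetic copies of `P`.
(4) If `A` has no three-term progression and is a union of `T` sets `⊆ [0, 2^M)` decided by such
circuits, then `|A| ≤ T 2^M 2^(2 ℓ + 13 - M / (32 loss))`.
(5) For all `w`, `d` and `C` there is `δ > 0` such that a set `A` without three-term progressions with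
at least `2^(M - C √M)` elements which is a union of at most `2^(C √M)` sets decided by such circuits
needs `ℓ ≥ δ M^(1/(2d))`, hence circuits with at least `2 ^ (δ M^(1/(2d)) - 1)` nodes.
(6) In particular this holds for the sets with `r_3(2^M)` elements. -/
theorem result :
    (∀ e M m w ℓ d r : ℕ, 1 ≤ w → 1 ≤ ℓ → 1 ≤ d → 1 ≤ m → m ≤ M →
      ∀ F A : Finset (Fin e → ℕ), DecidedIn w ℓ d M F → InGrids m r A → ∀ ε : ℝ, 0 < ε →
        ((A ∩ F).card : ℝ) ≤ (r / 2 ^ (e * m) + ε) * F.card +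
          2 * (e * m : ℕ) / ε *
            (2 ^ (e * M) * (2 : ℝ) ^ (2 * ℓ + 4 - ε / 2 * (M / m : ℕ) / loss w ℓ d : ℝ))) ∧
    (∀ M m w ℓ d : ℕ, 1 ≤ w → 1 ≤ ℓ → 1 ≤ d → 1 ≤ m → m ≤ M →
      ∀ F A : Finset ℕ, Decided w ℓ d M F → ThreeAPFree (A : Set ℕ) → ∀ ε : ℝ, 0 < ε →
        ((A ∩ F).card : ℝ) ≤ (rothNumberNat (2 ^ m) / 2 ^ m + ε) * F.card +
          2 * m / ε *
            (2 ^ M * (2 : ℝ) ^ (2 * ℓ + 4 - ε / 2 * (M / m : ℕ) / loss w ℓ d : ℝ))) ∧
    (∀ e : ℕ, 1 ≤ e → ∀ (P : Finset (Fin e → ℤ)) (δ : ℝ), 0 < δ → ∃ c : ℝ, 0 < c ∧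
      ∀ M w ℓ d : ℕ, 1 ≤ w → 1 ≤ ℓ → 1 ≤ d → ∀ F A : Finset (Fin e → ℕ),
        DecidedIn w ℓ d M F → ¬ HasCopy P A →
        ((A ∩ F).card : ℝ) ≤ δ * F.card +
          2 ^ (e * M) * (2 : ℝ) ^ (2 * ℓ + 1 / c - c * M / loss w ℓ d : ℝ)) ∧
    (∀ M w ℓ d T : ℕ, 1 ≤ w → 1 ≤ ℓ → 1 ≤ d → ∀ (A : Finset ℕ) (F : Fin T → Finset ℕ),
      ThreeAPFree (A : Set ℕ) → (∀ i, Decided w ℓ d M (F i)) → (∀ a, a ∈ A ↔ ∃ i, a ∈ F i) →
      (A.card : ℝ) ≤ T * 2 ^ M * (2 : ℝ) ^ (2 * ℓ + 13 - M / (32 * loss w ℓ d) : ℝ)) ∧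
    (∀ w d : ℕ, 1 ≤ w → 1 ≤ d → ∀ C : ℝ, ∃ δ : ℝ, 0 < δ ∧ ∀ M ℓ T : ℕ, 1 ≤ ℓ →
      ∀ (A : Finset ℕ) (F : Fin T → Finset ℕ), ThreeAPFree (A : Set ℕ) →
        (2 : ℝ) ^ (M - C * Real.sqrt M : ℝ) ≤ A.card → (T : ℝ) ≤ (2 : ℝ) ^ (C * Real.sqrt M) →
        (∀ i, Decided w ℓ d M (F i)) → (∀ a, a ∈ A ↔ ∃ i, a ∈ F i) →
        δ * (M : ℝ) ^ (1 / (2 * d) : ℝ) ≤ ℓ) ∧
    (∀ w d : ℕ, 1 ≤ w → 1 ≤ d → ∀ C : ℝ, ∃ δ : ℝ, 0 < δ ∧ ∀ M ℓ T : ℕ, 1 ≤ ℓ →
      ∀ (A : Finset ℕ) (F : Fin T → Finset ℕ), ThreeAPFree (A : Set ℕ) →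
        A.card = rothNumberNat (2 ^ M) → (T : ℝ) ≤ (2 : ℝ) ^ (C * Real.sqrt M) →
        (∀ i, Decided w ℓ d M (F i)) → (∀ a, a ∈ A ↔ ∃ i, a ∈ F i) →
        δ * (M : ℝ) ^ (1 / (2 * d) : ℝ) ≤ ℓ) := by
  refine ⟨?_, ?_, relative, ?_, ?_, ?_⟩
  · intro e M m w ℓ d r hw hℓ hd hm hmM F A hF hA ε hε
    exact grids hw hℓ hd hm hmM F A hF hA hε
  · intro M m w ℓ d hw hℓ hd hm hmM F A hF hA ε hε
    have h := grids hw hℓ hd hm hmM (F.map single) (A.map single) (decidedIn_single hF)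
      (inGrids_single fun c t ht => slice_card (m := m) hA c t ht) hε
    rw [card_single, card_map, one_mul, one_mul] at h
    exact h
  · intro M w ℓ d T hw hℓ hd A F hA hdec hun
    exact small_union hw hℓ hd A F hA hdec hun
  · intro w d hw hd C
    obtain ⟨δ, hδ, h⟩ := large w d hw hd |C| (abs_nonneg C)
    refine ⟨δ, hδ, fun M ℓ T hℓ A F hA hlow hT hdec hun => h M ℓ T hℓ A F hA ?_ ?_ hdec hun⟩
    · refine le_trans (Real.rpow_le_rpow_of_exponent_le (by norm_num) ?_) hlow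
      have := mul_le_mul_of_nonneg_right (le_abs_self C) (Real.sqrt_nonneg (M : ℝ))
      linarith
    · refine hT.trans (Real.rpow_le_rpow_of_exponent_le (by norm_num) ?_)
      exact mul_le_mul_of_nonneg_right (le_abs_self C) (Real.sqrt_nonneg (M : ℝ))
  · intro w d hw hd C
    obtain ⟨δ, hδ, h⟩ := large w d hw hd (max 5 C) (le_max_of_le_left (by norm_num))
    refine ⟨δ, hδ, fun M ℓ T hℓ A F hA hcard hT hdec hun => h M ℓ T hℓ A F hA ?_ ?_ hdec hun⟩
    · rw [hcard]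
      refine le_trans (Real.rpow_le_rpow_of_exponent_le (by norm_num) ?_) (behrend_two M)
      have := mul_le_mul_of_nonneg_right (le_max_left 5 C) (Real.sqrt_nonneg (M : ℝ))
      linarith
    · refine hT.trans (Real.rpow_le_rpow_of_exponent_le (by norm_num) ?_)
      exact mul_le_mul_of_nonneg_right (le_max_right 5 C) (Real.sqrt_nonneg (M : ℝ))

end Pool.Agent.Results.MP_0f71ae_nt.ConstantDepthCircuits
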