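import Pool.Agent.W5h68.RB.Sharp
import Pool.Agent.W5h68.RB.Cor

set_option autoImplicit false

/-!
# The digit boundary of progression-free sets

Join two integers in `[0, 2^M)` if they differ in exactly one binary digit.

* Sharp edge inequality: a set `A ⊆ [0, 2^M)` without three-term progressions, in particular every
  extremal set for `r_3(2^M)`, spans at most `(M + 1) |A| / 4` edges. (A general set of this size can
  span `|A| log_2 |A| / 2` edges.) So a random digit change takes a random element of `A` out of `A`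
  with probability at least `1/2 - 1/(2M)`. There is equality for all odd `M`.
* Conversely, the theorem of Szemerédi (in the multidimensional form of Furstenberg and Katznelson)
  holds relative to every set `F ⊆ [0, 2^M)^e`, however sparse, with a small digit boundary: for
  every configuration `P` and `δ > 0` there is `β > 0` such that every set `A` without homothetic
  copies of `P` has relative density at most `δ` in each `F` from which at most `β M |F|` digit
  changes lead out. For instance `F` may be any union of sets given by prescribing at most `β M` of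
  the digits (a different choice for each of them), or any unate set (closed under replacing the
  digit at the place `t` by `s t`) with at least `2 ^ ((1 - γ) e M)` elements, such as the numbers
  with many digits one.

Method. For the edge inequality the number of edges is compared, digit by digit, with a potential which
depends on the pattern of `A` on the blocks of four places of two consecutive digits; the weights were
found by linear programming, and the local inequality is checked for the patterns of eight places. The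
second part uses the averaging over blocks of digits of `Pool.Agent.Y347.CO.rel_card` and the theorem
`Pool.Agent.W5h68.RA.szem`, which rests on the density Hales-Jewett theorem of the starting files.
-/

namespace Pool.Agent.Results.MP_0f71ae_nt.DigitBoundary

open Finset Function

/-- `A` contains a homothetic copy `a + t P`, `t ≥ 1`, of the configuration `P`. -/
def HasCopy {e : ℕ} (P : Finset (Fin e → ℤ)) (A : Finset (Fin e → ℕ)) : Prop :=
  ∃ (a : Fin e → ℤ) (t : ℕ), 0 < t ∧ ∀ v ∈ P, ∃ b ∈ A, ∀ i, (b i : ℤ) = a i + t * v i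

/-- The point `a` with the `t`-th binary digit of the `i`-th coordinate changed
(`^^^` is the digitwise sum modulo two). -/
def flipDigit {e : ℕ} (a : Fin e → ℕ) (i : Fin e) (t : ℕ) : Fin e → ℕ :=
  update a i (a i ^^^ 2 ^ t)

open Classical in
/-- The number of triples `(a, i, t)`, `t < M`, such that `a ∈ F`, but changing the `t`-th binary
digit of the `i`-th coordinate of `a` gives a point outside `F`. -/
noncomputable def exits (M : ℕ) {e : ℕ} (F : Finset (Fin e → ℕ)) : ℕ :=
  ∑ i : Fin e, ∑ t ∈ range M, (F.filter fun a => flipDigit a i t ∉ F).card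

/-- `F ⊆ [0, 2^M)^e` -/
def InBox (M : ℕ) {e : ℕ} (F : Finset (Fin e → ℕ)) : Prop := ∀ a ∈ F, ∀ i, a i < 2 ^ M

/-- `F` is a union of cells, each of which is the set of all points of `[0, 2^M)^e` with prescribed
binary digits at no more than `k` places `(i, t)` (the `t`-th digit of the `i`-th coordinate). -/
def UnionOfCells (M k : ℕ) {e : ℕ} (F : Finset (Fin e → ℕ)) : Prop :=
  ∀ a ∈ F, ∃ S : Finset (Fin e × ℕ), S.card ≤ k ∧ ∀ b : Fin e → ℕ,
    (∀ i, b i < 2 ^ M) → (∀ p ∈ S, (b p.1).testBit p.2 = (a p.1).testBit p.2) → b ∈ F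

/-- `F` is closed under replacing a digit at the place `(i, t)`, `t < M`, by the digit `s i t`. -/
def Unate (M : ℕ) {e : ℕ} (s : Fin e → ℕ → Bool) (F : Finset (Fin e → ℕ)) : Prop :=
  ∀ a ∈ F, ∀ i, ∀ t < M, (a i).testBit t ≠ s i t → flipDigit a i t ∈ F

theorem slice_card {m : ℕ} {A : Finset ℕ} (hA : ThreeAPFree (A : Set ℕ)) (c t : ℕ) (ht : 0 < t) :
    ((range (2 ^ m)).filter fun u => c + t * u ∈ A).card ≤ rothNumberNat (2 ^ m) := by
  refine ThreeAPFree.le_rothNumberNat
    ((range (2 ^ m)).filter fun u => c + t * u ∈ A) ?_ ?_ rfl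
  · intro x hx y hy z hz hxyz
    have hx' := (mem_filter.1 (mem_coe.1 hx)).2
    have hy' := (mem_filter.1 (mem_coe.1 hy)).2
    have hz' := (mem_filter.1 (mem_coe.1 hz)).2
    have h1 := hA (mem_coe.2 hx') (mem_coe.2 hy') (mem_coe.2 hz') (by
      have : t * (x + z) = t * (y + y) := by rw [hxyz]
      linarith)
    have h2 : t * x = t * y := by omega
    exact Nat.eq_of_mul_eq_mul_left ht h2
  · intro x hx
    exact mem_range.1 (mem_filter.1 hx).1

/-- one coordinate -/
def single : ℕ ↪ (Fin 1 → ℕ) := ⟨fun a _ => a, fun _ _ h => congrFun h 0⟩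

theorem exits_single (M : ℕ) (F : Finset ℕ) :
    exits M (F.map single) = ∑ t ∈ range M, (F.filter fun a => a ^^^ 2 ^ t ∉ F).card := by
  classical
  unfold exits
  rw [Fin.sum_univ_one]
  apply sum_congr rfl
  intro t _
  have hflip : ∀ a : ℕ, flipDigit (single a) 0 t = single (a ^^^ 2 ^ t) := by
    intro a
    funext i
    rw [Subsingleton.elim i 0]
    unfold flipDigit
    rw [update_self]
    rfl
  rw [filter_map, card_map]
  congr 1
  apply filter_congr
  intro a _
  show flipDigit (single a) 0 t ∉ F.map single ↔ _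
  rw [hflip, mem_map' single]

theorem rel_three {M m : ℕ} (F A : Finset ℕ) (hF : ∀ a ∈ F, a < 2 ^ M)
    (hA : ThreeAPFree (A : Set ℕ)) :
    M / m * (2 ^ m * (A ∩ F).card) ≤ M / m * (rothNumberNat (2 ^ m) * F.card) +
      2 ^ m * ∑ t ∈ range M, (F.filter fun a => a ^^^ 2 ^ t ∉ F).card := by
  have h := Pool.Agent.W5h68.RB.rel_exits (M := M) (m := m) (F.map single) (A.map single)
    (by
      intro a ha i
      obtain ⟨b, hb, rfl⟩ := mem_map.1 ha
      exact hF b hb) (rothNumberNat (2 ^ m)) (by
      intro c t ht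
      refine le_trans ?_ (slice_card (m := m) hA (c 0) t ht)
      refine card_le_card_of_injOn (fun u => u 0) ?_ ?_
      · intro u hu
        have hu' := mem_filter.1 (mem_coe.1 hu)
        refine mem_coe.2 (mem_filter.2 ⟨?_, ?_⟩)
        · exact (Fintype.mem_piFinset.1 hu'.1) 0
        · obtain ⟨b, hb, hbe⟩ := mem_map.1 hu'.2
          have : c 0 + t * u 0 = b := (congrFun hbe 0).symm
          rw [this]
          exact hb
      · intro u _ u' _ h
        funext i
        rw [Subsingleton.elim i 0]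
        exact h)
  rw [← map_inter, card_map, card_map, one_mul] at h
  have e : Pool.Agent.W5h68.RB.exits M (F.map single) =
      ∑ t ∈ range M, (F.filter fun a => a ^^^ 2 ^ t ∉ F).card := exits_single M F
  rwa [e] at h

theorem boundary_three {M : ℕ} {A : Finset ℕ} (hM : ∀ a ∈ A, a < 2 ^ M)
    (hA : ThreeAPFree (A : Set ℕ)) :
    (M - 1) * A.card ≤ 2 * ∑ t ∈ range M, (A.filter fun a => a ^^^ 2 ^ t ∉ A).card := by
  have h1 := Pool.Agent.W5h68.RB.edges hM hA
  have h2 : ∑ t ∈ range M, (A.filter fun a => a ^^^ 2 ^ t ∈ A).card +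
      ∑ t ∈ range M, (A.filter fun a => a ^^^ 2 ^ t ∉ A).card = M * A.card := by
    rw [← sum_add_distrib, sum_congr rfl fun t _ => card_filter_add_card_filter_not _,
      sum_const, card_range, smul_eq_mul]
  rcases Nat.eq_zero_or_pos M with rfl | hM0
  · simp
  obtain ⟨k, rfl⟩ : ∃ k, M = k + 1 := ⟨M - 1, by omega⟩
  rw [Nat.add_sub_cancel]
  nlinarith

/-- **Theorem.**
(1) If `A ⊆ [0, 2^M)` has no three-term progression, then there are at most `(M + 1) |A| / 4` pairs of
elements of `A` which differ in exactly one binary digit (the sum counts each pair twice).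
(2) For all odd `M = 2 n + 1` there is such a set `A`, with `2 ^ (n + 1)` elements, with equality.
(3) In the situation of (1) at least `(M - 1) |A| / 2` digit changes lead out of `A`.
(4) If `A` has no three-term progression and `F ⊆ [0, 2^M)` is arbitrary, then
`|A ∩ F| ≤ (r_3(2^m) / 2^m) |F| + (number of digit changes leading out of F) / ⌊M / m⌋`.
(5) The same for `F ⊆ [0, 2^M)^e` and the largest number `r` of points of `A` in a dilated grid.
(6) For every finite `P ⊆ ℤ^e` and `δ > 0` there is `β > 0` such that for all `M ≥ 1 / β`, all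
`F ⊆ [0, 2^M)^e` from which at most `β M |F|` digit changes lead out and all `A` without homothetic
copies of `P`: `|A ∩ F| ≤ δ |F|`. In particular more than `β M |A|` digit changes lead out of every
nonempty set `A ⊆ [0, 2^M)^e` without copies of `P` (part (7)).
(8) (6) holds for all unions `F` of cells given by at most `β M` digits.
(9) For `P` and `δ` there is `γ > 0` such that `|A ∩ F| ≤ δ |F|` for all `M ≥ 1 / γ`, all unate sets
`F ⊆ [0, 2^M)^e` with at least `2 ^ ((1 - γ) e M)` elements and all `A` without copies of `P`. -/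
theorem result :
    (∀ (M : ℕ) (A : Finset ℕ), (∀ a ∈ A, a < 2 ^ M) → ThreeAPFree (A : Set ℕ) →
      2 * ∑ t ∈ range M, (A.filter fun a => a ^^^ 2 ^ t ∈ A).card ≤ (M + 1) * A.card) ∧
    (∀ n : ℕ, ∃ A : Finset ℕ, (∀ a ∈ A, a < 2 ^ (2 * n + 1)) ∧ ThreeAPFree (A : Set ℕ) ∧
      A.card = 2 ^ (n + 1) ∧
      2 * ∑ t ∈ range (2 * n + 1), (A.filter fun a => a ^^^ 2 ^ t ∈ A).card =
        (2 * n + 1 + 1) * A.card) ∧
    (∀ (M : ℕ) (A : Finset ℕ), (∀ a ∈ A, a < 2 ^ M) → ThreeAPFree (A : Set ℕ) →
      (M - 1) * A.card ≤ 2 * ∑ t ∈ range M, (A.filter fun a => a ^^^ 2 ^ t ∉ A).card) ∧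
    (∀ (M m : ℕ) (F A : Finset ℕ), (∀ a ∈ F, a < 2 ^ M) → ThreeAPFree (A : Set ℕ) →
      M / m * (2 ^ m * (A ∩ F).card) ≤ M / m * (rothNumberNat (2 ^ m) * F.card) +
        2 ^ m * ∑ t ∈ range M, (F.filter fun a => a ^^^ 2 ^ t ∉ F).card) ∧
    (∀ (e M m r : ℕ) (F A : Finset (Fin e → ℕ)), InBox M F →
      (∀ (c : Fin e → ℕ) (t : ℕ), 0 < t →
        ((Fintype.piFinset fun _ : Fin e => range (2 ^ m)).filter
          fun u => (fun i => c i + t * u i) ∈ A).card ≤ r) →
      M / m * (2 ^ (e * m) * (A ∩ F).card) ≤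
        M / m * (r * F.card) + 2 ^ (e * m) * exits M F) ∧
    (∀ (e : ℕ) (P : Finset (Fin e → ℤ)) (δ : ℝ), 0 < δ → ∃ β : ℝ, 0 < β ∧
      ∀ M : ℕ, 1 / β ≤ M → ∀ F A : Finset (Fin e → ℕ), InBox M F → ¬ HasCopy P A →
        (exits M F : ℝ) ≤ β * M * F.card → ((A ∩ F).card : ℝ) ≤ δ * F.card) ∧
    (∀ (e : ℕ) (P : Finset (Fin e → ℤ)), ∃ β : ℝ, 0 < β ∧
      ∀ M : ℕ, 1 / β ≤ M → ∀ A : Finset (Fin e → ℕ), InBox M A → ¬ HasCopy P A → A.Nonempty →
        β * M * A.card < exits M A) ∧
    (∀ (e : ℕ) (P : Finset (Fin e → ℤ)) (δ : ℝ), 0 < δ → ∃ β : ℝ, 0 < β ∧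
      ∀ M : ℕ, 1 / β ≤ M → ∀ F A : Finset (Fin e → ℕ), InBox M F → ¬ HasCopy P A →
        UnionOfCells M ⌊β * M⌋₊ F → ((A ∩ F).card : ℝ) ≤ δ * F.card) ∧
    (∀ (e : ℕ) (P : Finset (Fin e → ℤ)) (δ : ℝ), 0 < δ → ∃ γ : ℝ, 0 < γ ∧
      ∀ M : ℕ, 1 / γ ≤ M → ∀ F A : Finset (Fin e → ℕ), InBox M F → ¬ HasCopy P A →
        ∀ s : Fin e → ℕ → Bool, Unate M s F →
        (2 : ℝ) ^ ((1 - γ) * (e * M : ℕ)) ≤ F.card → ((A ∩ F).card : ℝ) ≤ δ * F.card) := by
  refine ⟨fun M A hM hA => Pool.Agent.W5h68.RB.edges hM hA, Pool.Agent.W5h68.RB.sharp,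
    fun M A hM hA => boundary_three hM hA, fun M m F A hF hA => rel_three F A hF hA,
    fun e M m r F A hF hr => ?_, fun e P δ hδ => ?_, fun e P => ?_, fun e P δ hδ => ?_,
    fun e P δ hδ => ?_⟩
  · have h := Pool.Agent.W5h68.RB.rel_exits (M := M) (m := m) F A hF r hr
    exact h
  · obtain ⟨β, h0, -, h⟩ := Pool.Agent.W5h68.RB.relative P δ hδ
    exact ⟨β, h0, fun M hM F A hF hA hex => h M hM F A hF hex hA⟩
  · obtain ⟨β, h0, -, h⟩ := Pool.Agent.W5h68.RB.relative P (1 / 2) (by norm_num)
    refine ⟨β, h0, fun M hM A hF hA hne => ?_⟩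
    by_contra hcon
    push Not at hcon
    have h1 := h M hM A A hF hcon hA
    rw [inter_self] at h1
    have h2 : (0 : ℝ) < A.card := by exact_mod_cast card_pos.2 hne
    linarith
  · obtain ⟨β, h0, -, h⟩ := Pool.Agent.W5h68.RB.relative P δ hδ
    refine ⟨β, h0, fun M hM F A hF hA hc => h M hM F A hF ?_ hA⟩
    have h1 := Pool.Agent.W5h68.RB.exits_cells M ⌊β * M⌋₊ F hF hc
    have h2 : (Pool.Agent.W5h68.RB.exits M F : ℝ) ≤ (⌊β * M⌋₊ : ℕ) * F.card := by
      exact_mod_cast h1
    refine h2.trans (mul_le_mul_of_nonneg_right (Nat.floor_le (by positivity))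
      (Nat.cast_nonneg _))
  · obtain ⟨γ, h0, h⟩ := Pool.Agent.W5h68.RB.relative_unate P δ hδ
    exact ⟨γ, h0, fun M hM F A hF hA s hs hcard => h M hM F A hF s hs hcard hA⟩

end Pool.Agent.Results.MP_0f71ae_nt.DigitBoundary
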