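import Pool.Agent.W5h75.FewFreq.Extremal

set_option autoImplicit false

namespace Pool.Agent.Results.MP_0f71ae_nt.FewFrequencies

open Finset

/-- `A` contains no `k`-term arithmetic progression `a, a + d, …, a + (k - 1) d` with `d ≥ 1`. -/
def APFree (k : ℕ) (A : Finset ℕ) : Prop :=
  ∀ a d : ℕ, 0 < d → ¬ ∀ j < k, a + j * d ∈ A

open Classical in
/-- `r k N = r_k(N)`: the largest number of elements of a subset of `{1, …, N}` without `k`-term
arithmetic progressions. -/
noncomputable def r (k N : ℕ) : ℕ := ((Icc 1 N).powerset.filter (APFree k)).sup card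

/-- The point `(n, {α₁ n + β₁}, …, {α_m n + β_m})` of `ℝ^(m+1)`, where `{ }` is the fractional
part. -/
noncomputable def pt {m : ℕ} (α β : Fin m → ℝ) (n : ℕ) : Fin (m + 1) → ℝ :=
  Fin.cons (n : ℝ) fun i => Int.fract (α i * n + β i)

open Classical in
/-- The set of all `n ∈ {1, …, N}` for which `(n, {α₁ n + β₁}, …, {α_m n + β_m})` lies in `S`:
the subset of `{1, …, N}` given by the `m` frequencies `α`, the phases `β` and the set `S`. -/
noncomputable def cut {m : ℕ} (α β : Fin m → ℝ) (S : Set (Fin (m + 1) → ℝ)) (N : ℕ) : Finset ℕ :=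
  (Icc 1 N).filter fun n => pt α β n ∈ S

/-- `S` has line complexity at most `K`: every line meets `S` in a union of at most `K` intervals
(bounded or not, open, closed or half-open, possibly empty or a single point). -/
def LineComplexity {m : ℕ} (S : Set (Fin m → ℝ)) (K : ℕ) : Prop :=
  ∀ x v : Fin m → ℝ, ∃ I : Fin K → Set ℝ, (∀ c, Convex ℝ (I c)) ∧
    ∀ t : ℝ, x + t • v ∈ S ↔ ∃ c, t ∈ I c

/-- **Progression-free sets given by few frequencies.**

(1) If `A` has no `k`-term progression and `B ⊆ {1, …, N}` is given by `m` frequencies and a set of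
line complexity at most `K` then, for all `L ≥ 1`,
`|A ∩ B| ≤ (r_k(L) / L) |B| + 3 K (m + 1) r_k(L) N^(1 - 1/(m+1))`.

(2) If `A ⊆ {1, …, N}` has no `k`-term progression and is a union of `T` such sets then
`|A| ≤ 3 T K (m + 1) (k - 1) N^(1 - 1/(m+1))`.

(3) The exponent and the dependence on `K` in (2) are best possible: for all `m ≥ 1`, all primes
`p` and `K ≤ p` there is for `N = p^(m+1)` such a set, with line complexity at most `(m + 1) K` and
at least `(r_k(N) / (2 N)) K N^(1 - 1/(m+1))` elements.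

(4) A difference of two convex sets has line complexity at most two, and for every `N ≥ 1` there
are `m ≤ √(log₂ N)` frequencies and two convex sets `C`, `D` such that `C ∖ D` gives a subset of
`{1, …, N}` without `3`-term progressions with at least `N exp (- 5 √(log N))` elements (Behrend's
sets).

(5) If `√(log N) ≥ 6 k`, `A ⊆ {1, …, N}` has no `k`-term progression, `|A| ≥ N exp (- C √(log N))`
and `A` is a union of `T` sets given by `m` frequencies and sets of line complexity at most `K`,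
where `T K ≤ exp (C √(log N))`, then `m + 1 ≥ √(log N) / (2 C + 1)`.

(6) If `M ≥ 1`, `√(log N) ≥ 96 M ^ 3 k`, `A ⊆ {1, …, N}` has no `k`-term progression and is a union
of `T` sets given by `m ≤ M √(log N) - 1` frequencies and sets of line complexity at most `K`, where
`T K ≤ exp (√(log N) / (4 M))`, then `|A| ≤ N exp (- √(log N) / (2 M))`.

(7) For every `η > 0` there is `s₀` such that, if `√(log N) ≥ s₀`, `A` has no `3`-term progression,
`|A| ≥ N exp (- C √(log N))`, `B ⊆ {1, …, N}` is given by `m` frequencies and a set of line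
complexity at most `exp (C √(log N))`, and `|A ∩ B| ≥ η |A|`, `|A ∩ B| ≥ η |B|`, then
`m + 1 ≥ √(log N) / (2 C + 1)`.

(8) In particular this holds, with `C = 5`, for the sets `A` with `r_3(N)` elements.

(9) A set given by the signs of `l` polynomials in `m` variables of degree at most `D` has line
complexity at most `2 l D + 1`.

(10) If `m ≥ log₂ N` then every subset of `{1, …, N}` is given by `m` frequencies and a set of line
complexity at most two. -/
theorem result :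
    -- (1)
    (∀ (k m K N L : ℕ) (α β : Fin m → ℝ) (S : Set (Fin (m + 1) → ℝ)) (A : Finset ℕ),
      1 ≤ L → LineComplexity S K → APFree k A →
      ((A ∩ cut α β S N).card : ℝ) ≤ r k L / L * (cut α β S N).card +
        3 * K * (m + 1) * r k L * (N : ℝ) ^ (1 - 1 / ((m : ℝ) + 1))) ∧
    -- (2)
    (∀ (k T m K N : ℕ) (α β : Fin T → Fin m → ℝ) (S : Fin T → Set (Fin (m + 1) → ℝ)), 1 ≤ k →
      (∀ i, LineComplexity (S i) K) → APFree k (univ.biUnion fun i => cut (α i) (β i) (S i) N) →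
      ((univ.biUnion fun i => cut (α i) (β i) (S i) N).card : ℝ) ≤
        3 * T * K * (m + 1) * ((k : ℝ) - 1) * (N : ℝ) ^ (1 - 1 / ((m : ℝ) + 1))) ∧
    -- (3)
    (∀ p m K k : ℕ, p.Prime → 1 ≤ m → 1 ≤ K → K ≤ p → 1 ≤ k →
      ∃ (α : Fin m → ℝ) (S : Set (Fin (m + 1) → ℝ)), LineComplexity S ((m + 1) * K) ∧
        APFree k (cut α 0 S (p ^ (m + 1))) ∧
        (r k (p ^ (m + 1)) : ℝ) / (2 * (p : ℝ) ^ (m + 1)) * (K * (p : ℝ) ^ m) ≤
          (cut α 0 S (p ^ (m + 1))).card) ∧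
    -- (4)
    (∀ (m : ℕ) (C D : Set (Fin m → ℝ)), Convex ℝ C → Convex ℝ D → LineComplexity (C \ D) 2) ∧
    (∀ N : ℕ, 1 ≤ N → ∃ (m : ℕ) (α : Fin m → ℝ) (C D : Set (Fin (m + 1) → ℝ)),
      (m : ℝ) ^ 2 * Real.log 2 ≤ Real.log N ∧ Convex ℝ C ∧ Convex ℝ D ∧
      APFree 3 (cut α 0 (C \ D) N) ∧
      N * Real.exp (-(5 * √(Real.log N))) ≤ (cut α 0 (C \ D) N).card) ∧
    -- (5)
    (∀ (k T m K N : ℕ) (C : ℝ) (α β : Fin T → Fin m → ℝ) (S : Fin T → Set (Fin (m + 1) → ℝ)),
      1 ≤ k → 1 ≤ N → 0 ≤ C → 6 * (k : ℝ) ≤ √(Real.log N) → (∀ i, LineComplexity (S i) K) →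
      (T : ℝ) * K ≤ Real.exp (C * √(Real.log N)) →
      APFree k (univ.biUnion fun i => cut (α i) (β i) (S i) N) →
      N * Real.exp (-(C * √(Real.log N))) ≤
        (univ.biUnion fun i => cut (α i) (β i) (S i) N).card →
      √(Real.log N) ≤ (2 * C + 1) * (m + 1)) ∧
    -- (6)
    (∀ (k T m K N : ℕ) (M : ℝ) (α β : Fin T → Fin m → ℝ) (S : Fin T → Set (Fin (m + 1) → ℝ)),
      1 ≤ k → 1 ≤ N → 1 ≤ M → 96 * M ^ 3 * k ≤ √(Real.log N) → (∀ i, LineComplexity (S i) K) →
      (T : ℝ) * K ≤ Real.exp (√(Real.log N) / (4 * M)) → (m : ℝ) + 1 ≤ M * √(Real.log N) →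
      APFree k (univ.biUnion fun i => cut (α i) (β i) (S i) N) →
      ((univ.biUnion fun i => cut (α i) (β i) (S i) N).card : ℝ) ≤
        N * Real.exp (-(√(Real.log N) / (2 * M)))) ∧
    -- (7)
    (∀ η : ℝ, 0 < η → ∃ s₀ : ℝ, ∀ (C : ℝ) (N m K : ℕ), 0 ≤ C → 1 ≤ N → s₀ ≤ √(Real.log N) →
      ∀ (α β : Fin m → ℝ) (S : Set (Fin (m + 1) → ℝ)) (A : Finset ℕ), LineComplexity S K →
      (K : ℝ) ≤ Real.exp (C * √(Real.log N)) → APFree 3 A →
      N * Real.exp (-(C * √(Real.log N))) ≤ A.card →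
      η * A.card ≤ (A ∩ cut α β S N).card → η * (cut α β S N).card ≤ (A ∩ cut α β S N).card →
      √(Real.log N) ≤ (2 * C + 1) * (m + 1)) ∧
    -- (8)
    (∀ η : ℝ, 0 < η → ∃ s₀ : ℝ, ∀ N m K : ℕ, 1 ≤ N → s₀ ≤ √(Real.log N) →
      ∀ (α β : Fin m → ℝ) (S : Set (Fin (m + 1) → ℝ)) (A : Finset ℕ), LineComplexity S K →
      (K : ℝ) ≤ Real.exp (5 * √(Real.log N)) → A ⊆ Icc 1 N → APFree 3 A → A.card = r 3 N →
      η * A.card ≤ (A ∩ cut α β S N).card → η * (cut α β S N).card ≤ (A ∩ cut α β S N).card →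
      √(Real.log N) ≤ 11 * (m + 1)) ∧
    -- (9)
    (∀ (m l D : ℕ) (p : Fin l → MvPolynomial (Fin m) ℝ) (φ : (Fin l → SignType) → Prop),
      (∀ j, (p j).totalDegree ≤ D) →
      LineComplexity {x : Fin m → ℝ | φ fun j => SignType.sign (MvPolynomial.eval x (p j))}
        (2 * (l * D) + 1)) ∧
    -- (10)
    (∀ m N : ℕ, N ≤ 2 ^ m → ∃ α : Fin m → ℝ, ∀ A ⊆ Icc 1 N,
      ∃ S : Set (Fin (m + 1) → ℝ), LineComplexity S 2 ∧ cut α 0 S N = A) := by
  refine ⟨?_, ?_, ?_, ?_, ?_, ?_, ?_, ?_, ?_, ?_, ?_⟩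
  · intro k m K N L α β S A hL hS hA
    exact W5h75.FewFreq.relative hL α β S hS A hA
  · intro k T m K N α β S hk hS hA
    exact W5h75.FewFreq.union_bound hk α β S hS hA
  · intro p m K k hp hm hK hKp hk
    obtain ⟨S, h1, h2, h3⟩ := W5h75.FewFreq.norm_sharp p m K k hp hm hK hKp hk
    refine ⟨W5h75.FewFreq.fr p m, S, h1, h2, ?_⟩
    have hp0 : (0 : ℝ) < p := by exact_mod_cast hp.pos
    rw [div_mul_eq_mul_div, div_le_iff₀ (by positivity)]
    have h4 : (K : ℝ) * p ^ m * W5h75.FewFreq.r k (p ^ (m + 1)) ≤ 2 * p ^ (m + 1) *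
        (W5h75.FewFreq.cut (W5h75.FewFreq.fr p m) 0 S (p ^ (m + 1))).card := by
      exact_mod_cast h3
    have h5 : (W5h75.FewFreq.r k (p ^ (m + 1)) : ℝ) * (K * (p : ℝ) ^ m) ≤
        (W5h75.FewFreq.cut (W5h75.FewFreq.fr p m) 0 S (p ^ (m + 1))).card *
          (2 * (p : ℝ) ^ (m + 1)) := by
      linarith
    exact h5
  · intro m C D hC hD
    exact W5h75.FewFreq.lineComplexity_diff C D hC hD
  · intro N hN
    exact W5h75.FewFreq.behrend_shell N hN
  · intro k T m K N C α β S hk hN hC hs hS hT hA hl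
    exact W5h75.FewFreq.few_frequencies hk hN hC hs α β S hS hT hA hl
  · intro k T m K N M α β S hk hN hM hs hS hT hm hA
    exact W5h75.FewFreq.many_frequencies hk hN hM hs α β S hS hT hm hA
  · intro η hη
    exact W5h75.FewFreq.correlation η hη
  · intro η hη
    obtain ⟨s₀, h⟩ := W5h75.FewFreq.correlation η hη
    refine ⟨s₀, ?_⟩
    intro N m K hN hs α β S A hS hK hAN hA hAr h1 h2
    have hlarge : (N : ℝ) * Real.exp (-(5 * √(Real.log N))) ≤ A.card := by
      obtain ⟨m', α', C, D, -, -, -, h3, h4⟩ := W5h75.FewFreq.behrend_shell N hN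
      refine h4.trans ?_
      rw [hAr]
      exact_mod_cast W5h75.FewFreq.card_le_r h3 (W5h75.FewFreq.cut_subset _ _ _ _)
    have h3 := h 5 N m K (by norm_num) hN hs α β S A hS hK hA hlarge h1 h2
    linarith
  · intro m l D p φ hp
    exact W5h75.FewFreq.semialg p hp φ
  · intro m N hN
    exact ⟨W5h75.FewFreq.fr 2 m, fun A hA => W5h75.FewFreq.all_subsets m N hN A hA⟩

end Pool.Agent.Results.MP_0f71ae_nt.FewFrequencies
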