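import Pool.Agent.H15LD.Sharp

/-!
# Progression-free sets given by linear equations in the digits

Let `b` be even and `N = b ^ n`. We consider the level sets `{x < N : ∑_j φ_j(x_j) = θ}` of the functions which are
additive in the digits `x_0, …, x_{n-1}` of `x` in base `b`, with arbitrary functions `φ_j` on the set of the digits and
values in an arbitrary abelian group: the sets given by any system of linear equations, over any rings, in the
indicator variables of the digits (digit sums and their residues, prescribed and forbidden digits, affine subspaces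
over `𝔽_2`, the sum of the squares of the digits, …).

1. If a union `A` of `T` such sets contains no progression of length `k`, `k ≤ 4`, then
   `|A| ≤ T N exp(- (n - 1) / 300)`. The constant is absolute.
2. This is sharp up to the constant (if `n ≥ log b`): Behrend's sets are of this kind, `T = 1`, and for each
   base `b ≥ 2` there is such a set without three-term progressions with at least `⌊(b+1)/2⌋^n / (n b²)` elements.
3. So if `b ≤ exp(K √(log N))` then a progression-free union of `T` such sets has at most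
   `T N exp(- √(log N) / (300 K) + 1 / 300)` elements, as in Behrend's theorem.
4. If a progression-free set with at least `N exp(- C √(log N))` elements, for instance one with `r_3(N)` elements
   (`C = 4`), is a union of at most `exp(n / 600)` such sets, then `log b ≥ √(log N) / (1200 C)`: large bases
   as in Behrend's construction are necessary.

Method. If the subset sums `∑_{k ∈ S} g_k`, `S ⊆ [m]`, in an abelian group take `D` different values and one of
them `F` times, then `D F^κ ≤ (2^κ + binom(κ, ⌊κ/2⌋))^m` for all `κ`: the vector `1_S + 1_{S_1} + … + 1_{S_κ}`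
determines the sum over `S` if `S_1, …, S_κ` have the popular sum. By fixing `x_j mod b/2`
(`j` even) and `⌊x_j/2⌋` (`j` odd) the question is reduced to blocks of two binary digits. There
`3y`, `2y + y'`, `y + 2y'`, `3y'` is a progression for all 0-1-vectors `y`, `y'`; it is in the level set if `3y`, `3y'` are and
the sums over the low digits agree, so a progression-free level set has at most `3^m D` elements.
-/

set_option autoImplicit false
set_option maxHeartbeats 4000000

open Finset

namespace Pool.Agent.Results.MP_0f71ae_nt.LinearDigitEquations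

open Pool.Agent.H15LD (IsLevel APFree)

/-- `A` is the union of `T` level sets (in base `b`, with `n` digits) of digit-additive functions -/
def Union (b n T : ℕ) (A : Finset ℕ) : Prop :=
  ∃ F : ℕ → Finset ℕ, (∀ t < T, IsLevel b n (F t)) ∧ A = (range T).biUnion F

lemma one_level (a m r : ℕ) (ha : 0 < a) (A : Finset ℕ) (hA : IsLevel (2 * a) (2 * m + r) A)
    (hfree : APFree 4 A) (hr : r ≤ 1) :
    (A.card : ℝ) ≤ ((2 * a : ℕ) : ℝ) ^ (2 * m + r) * Real.exp (-((((2 * m + r : ℕ) : ℝ) - 1) / 300)) := by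
  obtain ⟨H, _, φ, θ, h⟩ := hA
  have h1 := Pool.Agent.H15LD.level_bound ha φ θ A h hfree
  have h2 : (A.card : ℝ) ^ 12 * 16777216 ^ m ≤ (((2 * a : ℕ) : ℝ) ^ (2 * m + r)) ^ 12 * 15421440 ^ m := by
    exact_mod_cast h1
  have e0 : (15421440 : ℝ) ≤ 16777216 * Real.exp (-(2 / 25)) := by
    have := Real.add_one_le_exp (-(2 / 25) : ℝ)
    linarith
  have e1 : (15421440 : ℝ) ^ m ≤ 16777216 ^ m * Real.exp (-((m : ℝ) * (2 / 25))) := by
    have := pow_le_pow_left₀ (by norm_num) e0 m
    rw [mul_pow, ← Real.exp_nat_mul] at this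
    rw [mul_neg] at this
    exact this
  have h3 : (A.card : ℝ) ^ 12 ≤ ((((2 * a : ℕ) : ℝ) ^ (2 * m + r)) * Real.exp (-((m : ℝ) / 150))) ^ 12 := by
    rw [mul_pow, ← Real.exp_nat_mul]
    have e2 : ((12 : ℕ) : ℝ) * -((m : ℝ) / 150) = -((m : ℝ) * (2 / 25)) := by push_cast; ring
    rw [e2]
    have hpos : (0 : ℝ) < 16777216 ^ m := by positivity
    have h4 : (A.card : ℝ) ^ 12 * 16777216 ^ m ≤
        ((((2 * a : ℕ) : ℝ) ^ (2 * m + r)) ^ 12 * Real.exp (-((m : ℝ) * (2 / 25)))) * 16777216 ^ m := by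
      calc _ ≤ _ := h2
        _ ≤ (((2 * a : ℕ) : ℝ) ^ (2 * m + r)) ^ 12 * (16777216 ^ m * Real.exp (-((m : ℝ) * (2 / 25)))) :=
            mul_le_mul_of_nonneg_left e1 (by positivity)
        _ = _ := by ring
    exact le_of_mul_le_mul_right h4 hpos
  have h4 := le_of_pow_le_pow_left₀ (by norm_num) (by positivity) h3
  refine h4.trans (mul_le_mul_of_nonneg_left ?_ (by positivity))
  refine Real.exp_le_exp.mpr ?_
  have : ((2 * m + r : ℕ) : ℝ) ≤ 2 * (m : ℝ) + 1 := by
    have : (2 * m + r : ℕ) ≤ 2 * m + 1 := by omega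
    exact_mod_cast this
  linarith

lemma APFree.mono {k l : ℕ} {A B : Finset ℕ} (h : APFree k A) (hk : k ≤ l) (hB : B ⊆ A) : APFree l B :=
  fun a d hd hall => h a d hd fun i hi => hB (hall i (hi.trans_le hk))

/-- statement (1) -/
theorem part1 (b n T k : ℕ) (A : Finset ℕ) (hb : 2 ≤ b) (he : Even b) (hk : k ≤ 4)
    (hU : Union b n T A) (hfree : APFree k A) :
    (A.card : ℝ) ≤ T * (b : ℝ) ^ n * Real.exp (-(((n : ℝ) - 1) / 300)) := by
  obtain ⟨F, hF, rfl⟩ := hU
  have h0 : ∀ t < T, ((F t).card : ℝ) ≤ (b : ℝ) ^ n * Real.exp (-(((n : ℝ) - 1) / 300)) := by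
    intro t ht
    have hs : F t ⊆ (range T).biUnion F := subset_biUnion_of_mem F (mem_range.mpr ht)
    have hf : APFree 4 (F t) := APFree.mono hfree hk hs
    obtain ⟨a, ha⟩ := he
    have ha' : b = 2 * a := by omega
    subst ha'
    have hm : n = 2 * (n / 2) + n % 2 := (Nat.div_add_mod n 2).symm
    have hl := hF t ht
    rw [hm] at hl
    have := one_level a (n / 2) (n % 2) (by omega) (F t) hl hf (by omega)
    rwa [← hm] at this
  calc (((range T).biUnion F).card : ℝ) ≤ ((∑ t ∈ range T, (F t).card : ℕ) : ℝ) := by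
        exact_mod_cast card_biUnion_le
    _ = ∑ t ∈ range T, ((F t).card : ℝ) := by push_cast; rfl
    _ ≤ ∑ _t ∈ range T, (b : ℝ) ^ n * Real.exp (-(((n : ℝ) - 1) / 300)) :=
        sum_le_sum fun t ht => h0 t (mem_range.mp ht)
    _ = _ := by rw [sum_const, card_range, nsmul_eq_mul]; ring

lemma log_pow' (b n : ℕ) : Real.log ((b : ℝ) ^ n) = n * Real.log b := Real.log_pow (b : ℝ) n

/-- statement (3) -/
theorem part3 (b n T k : ℕ) (A : Finset ℕ) (K : ℝ) (hb : 2 ≤ b) (he : Even b) (hn : 1 ≤ n) (hk : k ≤ 4)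
    (hK : 0 < K) (hbK : (b : ℝ) ≤ Real.exp (K * √(Real.log ((b : ℝ) ^ n))))
    (hU : Union b n T A) (hfree : APFree k A) :
    (A.card : ℝ) ≤ T * (b : ℝ) ^ n * Real.exp (-(√(Real.log ((b : ℝ) ^ n)) / (300 * K)) + 1 / 300) := by
  refine (part1 b n T k A hb he hk hU hfree).trans (mul_le_mul_of_nonneg_left ?_ (by positivity))
  refine Real.exp_le_exp.mpr ?_
  have hb1 : (1 : ℝ) < b := by exact_mod_cast (by omega : 1 < b)
  have hlb : 0 < Real.log b := Real.log_pos hb1
  have hn0 : (0 : ℝ) < n := by exact_mod_cast hn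
  have hlN : 0 < Real.log ((b : ℝ) ^ n) := by rw [log_pow']; positivity
  set s := √(Real.log ((b : ℝ) ^ n)) with hs
  have hs0 : 0 < s := Real.sqrt_pos.mpr hlN
  have hs2 : s * s = n * Real.log b := by rw [hs, Real.mul_self_sqrt hlN.le, log_pow']
  have h1 : Real.log b ≤ K * s := by
    have := Real.log_le_log (by linarith) hbK
    rwa [Real.log_exp] at this
  have h2 : s ≤ n * K := by
    have : s * s ≤ (n * K) * s := by
      rw [hs2]
      calc (n : ℝ) * Real.log b ≤ n * (K * s) := mul_le_mul_of_nonneg_left h1 hn0.le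
        _ = _ := by ring
    exact le_of_mul_le_mul_right this hs0
  have h3 : s / (300 * K) ≤ n / 300 := by
    rw [div_le_div_iff₀ (by positivity) (by norm_num)]
    nlinarith
  linarith

lemma le_of_sq_le_sq₀ {x y : ℝ} (hy : 0 ≤ y) (h : x * x ≤ y * y) : x ≤ y := by
  by_contra hc
  push Not at hc
  nlinarith

/-- statement (4) -/
theorem part4 (b n T k : ℕ) (A : Finset ℕ) (C : ℝ) (hb : 2 ≤ b) (he : Even b) (hn : 1 ≤ n) (hk : k ≤ 4)
    (hC : 1 ≤ C) (hT : (T : ℝ) ≤ Real.exp (n / 600))
    (hU : Union b n T A) (hfree : APFree k A)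
    (hA : (b : ℝ) ^ n * Real.exp (-C * √(Real.log ((b : ℝ) ^ n))) ≤ A.card) :
    √(Real.log ((b : ℝ) ^ n)) ≤ 1200 * C * Real.log b := by
  have h0 := part1 b n T k A hb he hk hU hfree
  have hb1 : (1 : ℝ) < b := by exact_mod_cast (by omega : 1 < b)
  have hlb : Real.log 2 ≤ Real.log b := Real.log_le_log (by norm_num) (by exact_mod_cast hb)
  have hl2 : (1 / 2 : ℝ) < Real.log 2 := by have := Real.log_two_gt_d9; linarith
  have hn0 : (1 : ℝ) ≤ n := by exact_mod_cast hn
  have hlb0 : 0 < Real.log b := by linarith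
  have hlN : 0 < Real.log ((b : ℝ) ^ n) := by rw [log_pow']; positivity
  set s := √(Real.log ((b : ℝ) ^ n)) with hs
  have hs0 : 0 < s := Real.sqrt_pos.mpr hlN
  have hs2 : s * s = n * Real.log b := by rw [hs, Real.mul_self_sqrt hlN.le, log_pow']
  have h1 : (b : ℝ) ^ n * Real.exp (-C * s) ≤ (b : ℝ) ^ n * Real.exp ((n : ℝ) / 600 + -(((n : ℝ) - 1) / 300)) := by
    refine hA.trans (h0.trans ?_)
    rw [Real.exp_add]
    calc (T : ℝ) * (b : ℝ) ^ n * Real.exp (-(((n : ℝ) - 1) / 300))
        ≤ Real.exp (n / 600) * (b : ℝ) ^ n * Real.exp (-(((n : ℝ) - 1) / 300)) := by gcongr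
      _ = _ := by ring
  have h2 := le_of_mul_le_mul_left h1 (by positivity)
  have h3 := Real.exp_le_exp.mp h2
  have h4 : (n : ℝ) - 2 ≤ 600 * C * s := by linarith
  rcases le_or_gt 4 n with h | h
  · have hn4 : (4 : ℝ) ≤ n := by exact_mod_cast h
    have h5 : (n : ℝ) ≤ 1200 * C * s := by linarith
    have h6 : s * s ≤ (1200 * C * Real.log b) * s := by
      rw [hs2]
      calc (n : ℝ) * Real.log b ≤ (1200 * C * s) * Real.log b := mul_le_mul_of_nonneg_right h5 (by linarith)
        _ = _ := by ring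
    exact le_of_mul_le_mul_right h6 hs0
  · have hn3 : (n : ℝ) ≤ 3 := by exact_mod_cast (by omega : n ≤ 3)
    have hl : (1 / 2 : ℝ) ≤ Real.log b := by linarith
    have g0 : (3 : ℝ) ≤ 1200 * C := by linarith
    have g1 : (600 : ℝ) ≤ 1200 * C * Real.log b := by nlinarith
    have h5 : s * s ≤ (1200 * C * Real.log b) * (1200 * C * Real.log b) := by
      rw [hs2]
      calc (n : ℝ) * Real.log b ≤ 3 * Real.log b := mul_le_mul_of_nonneg_right hn3 hlb0.le
        _ ≤ (1200 * C) * Real.log b := mul_le_mul_of_nonneg_right g0 hlb0.le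
        _ = 1 * (1200 * C * Real.log b) := by ring
        _ ≤ _ := mul_le_mul_of_nonneg_right (by linarith) (by linarith)
    exact le_of_sq_le_sq₀ (by linarith) h5

/-- **Progression-free sets given by linear equations in the digits.** (1) the bound; (2) it is sharp;
(3) bases up to `exp(K √(log N))`; (4) large sets need large bases; (5) in particular the extremal sets for `r_3(N)`. -/
theorem result :
    (∀ (b n T k : ℕ) (A : Finset ℕ), 2 ≤ b → Even b → k ≤ 4 → Union b n T A → APFree k A →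
      (A.card : ℝ) ≤ T * (b : ℝ) ^ n * Real.exp (-(((n : ℝ) - 1) / 300))) ∧
    (∀ b n : ℕ, 2 ≤ b → 1 ≤ n →
      ∃ A, IsLevel b n A ∧ APFree 3 A ∧ ((b + 1) / 2) ^ n ≤ A.card * (n * b ^ 2)) ∧
    (∀ (b n T k : ℕ) (A : Finset ℕ) (K : ℝ), 2 ≤ b → Even b → 1 ≤ n → k ≤ 4 → 0 < K →
      (b : ℝ) ≤ Real.exp (K * √(Real.log ((b : ℝ) ^ n))) → Union b n T A → APFree k A →
      (A.card : ℝ) ≤ T * (b : ℝ) ^ n * Real.exp (-(√(Real.log ((b : ℝ) ^ n)) / (300 * K)) + 1 / 300)) ∧
    (∀ (b n T k : ℕ) (A : Finset ℕ) (C : ℝ), 2 ≤ b → Even b → 1 ≤ n → k ≤ 4 → 1 ≤ C →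
      (T : ℝ) ≤ Real.exp (n / 600) → Union b n T A → APFree k A →
      (b : ℝ) ^ n * Real.exp (-C * √(Real.log ((b : ℝ) ^ n))) ≤ A.card →
      √(Real.log ((b : ℝ) ^ n)) ≤ 1200 * C * Real.log b) ∧
    (∀ (b n T : ℕ) (A : Finset ℕ), 2 ≤ b → Even b → 1 ≤ n → (T : ℝ) ≤ Real.exp (n / 600) → Union b n T A →
      APFree 3 A → rothNumberNat (b ^ n) ≤ A.card → √(Real.log ((b : ℝ) ^ n)) ≤ 4800 * Real.log b) := by
  refine ⟨part1, Pool.Agent.H15LD.sharp, part3, part4, ?_⟩
  intro b n T A hb he hn hT hU hfree hA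
  have h1 := Behrend.roth_lower_bound (N := b ^ n)
  have h2 : (rothNumberNat (b ^ n) : ℝ) ≤ A.card := by exact_mod_cast hA
  have h3 : (b : ℝ) ^ n * Real.exp (-4 * √(Real.log ((b : ℝ) ^ n))) ≤ A.card := by
    refine le_trans ?_ (h1.trans h2)
    push_cast
    exact le_rfl
  have h4 := part4 b n T 3 A 4 hb he hn (by norm_num) (by norm_num) hT hU hfree h3
  linarith

end Pool.Agent.Results.MP_0f71ae_nt.LinearDigitEquations
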